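import Pool.Agent.H174.GP.StI

/-! Task GP cov (helper740): the covariance inequality. -/

set_option autoImplicit false

namespace Pool.Agent.H740.GP174

open Finset
open Pool.Agent.H174.GP

/-! ### The harmonic coefficients -/

lemma cH_succ (x j : ℕ) : cH (x + 1) j = cH x j + if j ≤ x + 1 then 1 / ((x : ℝ) + 1) else 0 := by
  unfold cH
  by_cases h : j ≤ x + 1
  · rw [Finset.sum_Icc_succ_top h, if_pos h]
    push_cast
    rfl
  · rw [if_neg h, Finset.Icc_eq_empty (by omega), Finset.Icc_eq_empty (by omega)]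
    simp

lemma cH_zero {x j : ℕ} (h : x < j) : cH x j = 0 := by
  unfold cH
  rw [Finset.Icc_eq_empty (by omega)]
  simp

lemma sum_ind {m n : ℕ} (h : m ≤ n) (c : ℝ) :
    ∑ j ∈ Finset.Icc 1 n, (if j ≤ m then c else 0) = m * c := by
  rw [← Finset.sum_filter]
  have h1 : (Finset.Icc 1 n).filter (fun j => j ≤ m) = Finset.Icc 1 m := by
    ext j
    simp only [Finset.mem_filter, Finset.mem_Icc]
    omega
  rw [h1, Finset.sum_const, Nat.card_Icc, nsmul_eq_mul]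
  simp

lemma sum_cH {n : ℕ} (x : ℕ) (h : x ≤ n) : ∑ j ∈ Finset.Icc 1 n, cH x j = x := by
  induction x with
  | zero =>
    rw [Finset.sum_eq_zero]
    · simp
    · intro j hj
      rw [Finset.mem_Icc] at hj
      exact cH_zero (by omega)
  | succ x ih =>
    simp only [cH_succ]
    rw [Finset.sum_add_distrib, ih (by omega), sum_ind h]
    push_cast
    have : (x : ℝ) + 1 ≠ 0 := by positivity
    field_simp

/-- multiplying by the indicator -/
lemma ind_mul {x m n : ℕ} (h : x ≤ m) (c : ℝ) :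
    ∑ j ∈ Finset.Icc 1 n, cH x j * (if j ≤ m then c else 0) =
      c * ∑ j ∈ Finset.Icc 1 n, cH x j := by
  rw [Finset.mul_sum]
  refine Finset.sum_congr rfl fun j _ => ?_
  split_ifs with hj
  · ring
  · rw [cH_zero (by omega)]
    ring

lemma diag_succ {n : ℕ} (x : ℕ) (h : x + 1 ≤ n) :
    ∑ j ∈ Finset.Icc 1 n, (cH (x + 1) j) ^ 2 =
      ∑ j ∈ Finset.Icc 1 n, (cH x j) ^ 2 + (2 - 1 / ((x : ℝ) + 1)) := by
  have h1 : ∀ j ∈ Finset.Icc 1 n, (cH (x + 1) j) ^ 2 = (cH x j) ^ 2 +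
      (2 * (cH x j * (if j ≤ x + 1 then 1 / ((x : ℝ) + 1) else 0)) +
        (if j ≤ x + 1 then (1 / ((x : ℝ) + 1)) ^ 2 else 0)) := by
    intro j _
    rw [cH_succ]
    split_ifs <;> ring
  rw [Finset.sum_congr rfl h1, Finset.sum_add_distrib, Finset.sum_add_distrib, ← Finset.mul_sum,
    ind_mul (by omega), sum_cH x (by omega), sum_ind h]
  have : (x : ℝ) + 1 ≠ 0 := by positivity
  push_cast
  field_simp
  ring

lemma diag_le {n : ℕ} (x : ℕ) (h : x ≤ n) : ∑ j ∈ Finset.Icc 1 n, (cH x j) ^ 2 ≤ 2 * x := by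
  induction x with
  | zero =>
    rw [Finset.sum_eq_zero]
    · simp
    · intro j hj
      rw [Finset.mem_Icc] at hj
      rw [cH_zero (by omega)]
      norm_num
  | succ x ih =>
    rw [diag_succ x h]
    have h1 := ih (by omega)
    have h2 : 0 ≤ 1 / ((x : ℝ) + 1) := by positivity
    push_cast
    linarith

lemma le_diag {n : ℕ} (x : ℕ) (h : x ≤ n) :
    2 * (x : ℝ) - 2 * Real.sqrt x ≤ ∑ j ∈ Finset.Icc 1 n, (cH x j) ^ 2 := by
  induction x with
  | zero =>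
    simp only [Nat.cast_zero, Real.sqrt_zero, mul_zero, sub_zero]
    exact Finset.sum_nonneg fun j _ => sq_nonneg _
  | succ x ih =>
    rw [diag_succ x h]
    have h1 := ih (by omega)
    have hx : (0 : ℝ) ≤ x := Nat.cast_nonneg x
    have h2 : 1 / ((x : ℝ) + 1) ≤ 2 * (Real.sqrt (x + 1) - Real.sqrt x) := by
      have h3 : Real.sqrt ((x : ℝ) + 1) ^ 2 = x + 1 := Real.sq_sqrt (by positivity)
      have h4 : Real.sqrt (x : ℝ) ^ 2 = x := Real.sq_sqrt hx
      have h5 : Real.sqrt (x : ℝ) ≤ Real.sqrt ((x : ℝ) + 1) := Real.sqrt_le_sqrt (by linarith)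
      have h6 : 1 ≤ Real.sqrt ((x : ℝ) + 1) := Real.one_le_sqrt.2 (by linarith)
      have h0 : 0 ≤ Real.sqrt (x : ℝ) := Real.sqrt_nonneg _
      rw [div_le_iff₀ (by positivity)]
      have h7 : (Real.sqrt ((x : ℝ) + 1) - Real.sqrt x) * (Real.sqrt ((x : ℝ) + 1) + Real.sqrt x) = 1 := by
        have : (Real.sqrt ((x : ℝ) + 1) - Real.sqrt x) * (Real.sqrt ((x : ℝ) + 1) + Real.sqrt x) =
          Real.sqrt ((x : ℝ) + 1) ^ 2 - Real.sqrt (x : ℝ) ^ 2 := by ring
        rw [this, h3, h4]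
        ring
      have h8 : Real.sqrt ((x : ℝ) + 1) + Real.sqrt x ≤ 2 * ((x : ℝ) + 1) := by
        nlinarith
      have h9 : 0 ≤ Real.sqrt ((x : ℝ) + 1) - Real.sqrt x := by linarith
      nlinarith [mul_le_mul_of_nonneg_left h8 h9]
    push_cast
    linarith

lemma off_le {n x : ℕ} (hx : 1 ≤ x) (y : ℕ) (hxy : x ≤ y) (h : y ≤ n) :
    ∑ j ∈ Finset.Icc 1 n, cH x j * cH y j ≤ 2 * x + x * (Real.log y - Real.log x) := by
  induction y, hxy using Nat.le_induction with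
  | base =>
    have h1 := diag_le x h
    simp only [← pow_two]
    linarith
  | succ y hxy ih =>
    have h1 := ih (by omega)
    have h2 : ∑ j ∈ Finset.Icc 1 n, cH x j * cH (y + 1) j =
        ∑ j ∈ Finset.Icc 1 n, cH x j * cH y j + 1 / ((y : ℝ) + 1) * x := by
      have h3 : ∀ j ∈ Finset.Icc 1 n, cH x j * cH (y + 1) j = cH x j * cH y j +
          cH x j * (if j ≤ y + 1 then 1 / ((y : ℝ) + 1) else 0) := by
        intro j _
        rw [cH_succ]
        ring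
      rw [Finset.sum_congr rfl h3, Finset.sum_add_distrib, ind_mul (by omega), sum_cH x (by omega)]
    rw [h2]
    have hy : (0 : ℝ) < y := by exact_mod_cast (by omega : 0 < y)
    have h4 : 1 / ((y : ℝ) + 1) ≤ Real.log ((y + 1 : ℕ) : ℝ) - Real.log y := by
      have h5 := Real.log_le_sub_one_of_pos (x := (y : ℝ) / (y + 1)) (by positivity)
      rw [Real.log_div hy.ne' (by positivity)] at h5
      push_cast
      have h6 : (y : ℝ) / (y + 1) - 1 = -(1 / ((y : ℝ) + 1)) := by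
        field_simp
        ring
      linarith
    have h7 := mul_le_mul_of_nonneg_right h4 (Nat.cast_nonneg (α := ℝ) x)
    linarith

/-! ### The coefficients of the integrated walk -/

lemma sum_poly (a b : ℝ) (w : ℕ) : ∑ j ∈ Finset.Icc 1 w, (a - (j : ℝ) + 1) * (b - (j : ℝ) + 1) =
    w * ((a + 1) * (b + 1)) - (a + b + 2) * (w * (w + 1) / 2) + w * (w + 1) * (2 * w + 1) / 6 := by
  induction w with
  | zero => simp
  | succ w ih =>
    rw [Finset.sum_Icc_succ_top (by omega), ih]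
    push_cast
    ring

lemma cI_sum {n w w' : ℕ} (hw : w ≤ w') (h : w' ≤ n) :
    ∑ j ∈ Finset.Icc 1 n, cI w j * cI w' j =
      (w : ℝ) * (w + 1) * (((w' : ℝ) - w) / 2 + (2 * w + 1) / 6) := by
  have h1 : ∑ j ∈ Finset.Icc 1 n, cI w j * cI w' j =
      ∑ j ∈ Finset.Icc 1 w, ((w : ℝ) - (j : ℝ) + 1) * ((w' : ℝ) - (j : ℝ) + 1) := by
    symm
    have h2 : ∀ j ∈ Finset.Icc 1 w, ((w : ℝ) - (j : ℝ) + 1) * ((w' : ℝ) - (j : ℝ) + 1) =
        cI w j * cI w' j := by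
      intro j hj
      rw [Finset.mem_Icc] at hj
      unfold cI
      rw [if_pos hj.2, if_pos (hj.2.trans hw)]
    rw [Finset.sum_congr rfl h2]
    refine Finset.sum_subset (Finset.Icc_subset_Icc_right (hw.trans h)) fun j hj hj2 => ?_
    rw [Finset.mem_Icc] at hj hj2
    unfold cI
    rw [if_neg (by omega), zero_mul]
  rw [h1, sum_poly]
  ring

/-! ### The elementary inequality -/

lemma log_bound {u : ℝ} (hu : 1 ≤ u) : Real.log u ≤ (u - u⁻¹) / 2 := by
  rw [← Real.sinh_log (by linarith)]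
  exact Real.self_le_sinh_iff.2 (Real.log_nonneg hu)

lemma f_bound {s : ℝ} (h0 : 0 < s) (h1 : s ≤ 1) :
    s * (1 - 2 * Real.log s) ≤ (3 - s ^ 2) / 2 - (1 - s) ^ 2 / 2 := by
  have h2 := log_bound (u := s⁻¹) ((one_le_inv₀ h0).2 h1)
  rw [Real.log_inv, inv_inv] at h2
  have h3 : s * (-Real.log s) ≤ s * ((s⁻¹ - s) / 2) := mul_le_mul_of_nonneg_left h2 h0.le
  have h4 : s * ((s⁻¹ - s) / 2) = (1 - s ^ 2) / 2 := by
    field_simp
  nlinarith

lemma final_ineq {s t f0 : ℝ} (h0 : 0 < s) (h1 : s ≤ 1) (ht0 : 0 ≤ t) (ht1 : t ≤ 1 / 2)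
    (hf : 6 * t ≤ f0) (hs : f0 ≤ (1 - s) ^ 2 / 2) :
    s * (1 - 2 * Real.log s) * (1 + t) ^ 2 ≤ (1 - t) * ((3 - s ^ 2) / 2) := by
  have h2 := f_bound h0 h1
  have h3 : s * (1 - 2 * Real.log s) ≤ (3 - s ^ 2) / 2 - f0 := by linarith
  have h4 : s * (1 - 2 * Real.log s) * (1 + t) ^ 2 ≤ ((3 - s ^ 2) / 2 - f0) * (1 + t) ^ 2 :=
    mul_le_mul_of_nonneg_right h3 (by positivity)
  refine h4.trans ?_
  have hg : (3 - s ^ 2) / 2 ≤ 3 / 2 := by nlinarith
  obtain ⟨g, hgd⟩ : ∃ g : ℝ, g = (3 - s ^ 2) / 2 := ⟨_, rfl⟩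
  rw [← hgd] at hg ⊢
  have h5 : g * (3 * t + t ^ 2) ≤ 3 / 2 * (3 * t + t ^ 2) :=
    mul_le_mul_of_nonneg_right hg (by positivity)
  have h6 : t ^ 2 ≤ t / 2 := by nlinarith
  have h7 : 0 ≤ f0 := by linarith
  have h8 : 0 ≤ f0 * (2 * t + t ^ 2) := by positivity
  nlinarith

/-- the main computation -/
lemma core {h a b P11 P12 P22 B11 B12 B22 : ℝ} (hh : 0 < h) (ha : 2 ≤ a) (hab : (1 + h) * a ≤ b)
    (hlarge : 6 * a⁻¹ ≤ (1 - (Real.sqrt (1 + h))⁻¹) ^ 2 / 2)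
    (hP12 : P12 ≤ 2 * a ^ 2 + a ^ 2 * (2 * Real.log b - 2 * Real.log a))
    (hP11 : 2 * a ^ 2 - 2 * a ≤ P11) (hP22 : 2 * b ^ 2 - 2 * b ≤ P22)
    (hB12 : B12 = a * (a + 1) * ((b - a) / 2 + (2 * a + 1) / 6))
    (hB11 : B11 = a * (a + 1) * ((a - a) / 2 + (2 * a + 1) / 6))
    (hB22 : B22 = b * (b + 1) * ((b - b) / 2 + (2 * b + 1) / 6)) :
    P12 / (Real.sqrt P11 * Real.sqrt P22) ≤ B12 / (Real.sqrt B11 * Real.sqrt B22) := by
  have ha0 : 0 < a := by linarith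
  have hb : a ≤ b := by nlinarith
  have hb0 : 0 < b := by linarith
  -- the parameters
  obtain ⟨t, ht⟩ : ∃ t : ℝ, t = a⁻¹ := ⟨_, rfl⟩
  have ht0 : 0 < t := by rw [ht]; positivity
  have hta : t * a = 1 := by rw [ht]; exact inv_mul_cancel₀ ha0.ne'
  have ht1 : t ≤ 1 / 2 := by nlinarith
  have htb : 1 ≤ t * b := by nlinarith
  obtain ⟨s, hs⟩ : ∃ s : ℝ, s = Real.sqrt (a / b) := ⟨_, rfl⟩
  have hs0 : 0 < s := by rw [hs]; positivity
  have hs2 : s ^ 2 = a / b := by rw [hs]; exact Real.sq_sqrt (by positivity)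
  have hs2b : s ^ 2 * b = a := by rw [hs2]; field_simp
  obtain ⟨r, hr⟩ : ∃ r : ℝ, r = (Real.sqrt (1 + h))⁻¹ := ⟨_, rfl⟩
  have hr1 : r ≤ 1 := by
    rw [hr]
    exact inv_le_one_of_one_le₀ (Real.one_le_sqrt.2 (by linarith))
  have hsr : s ≤ r := by
    rw [hs, hr, ← Real.sqrt_inv]
    apply Real.sqrt_le_sqrt
    rw [div_le_iff₀ hb0, inv_mul_eq_div, le_div_iff₀ (by linarith)]
    linarith
  have hs1 : s ≤ 1 := hsr.trans hr1
  have hlogs : 2 * Real.log s = Real.log a - Real.log b := by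
    have h1 : Real.log (s ^ 2) = Real.log a - Real.log b := by
      rw [hs2, Real.log_div ha0.ne' hb0.ne']
    rw [Real.log_pow] at h1
    push_cast at h1
    exact h1
  have hfin := final_ineq (s := s) (t := t) (f0 := (1 - r) ^ 2 / 2) hs0 hs1 ht0.le ht1
    (by rw [ht, hr]; exact hlarge) (by nlinarith)
  -- the left side
  obtain ⟨c, hc⟩ : ∃ c : ℝ, c = Real.sqrt (2 * (1 - t)) := ⟨_, rfl⟩
  have hc2 : c ^ 2 = 2 * (1 - t) := by rw [hc]; exact Real.sq_sqrt (by linarith)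
  have hc0 : 0 < c := by
    rw [hc]
    exact Real.sqrt_pos.2 (by linarith)
  have e1 : c * a ≤ Real.sqrt P11 := by
    apply Real.le_sqrt_of_sq_le
    have h1 : (c * a) ^ 2 = 2 * a ^ 2 - 2 * (t * a) * a := by
      rw [mul_pow, hc2]
      ring
    rw [h1, hta]
    linarith
  have e2 : c * b ≤ Real.sqrt P22 := by
    apply Real.le_sqrt_of_sq_le
    have h1 : (c * b) ^ 2 = 2 * b ^ 2 - 2 * (t * b) * b := by
      rw [mul_pow, hc2]
      ring
    rw [h1]
    nlinarith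
  have hL0 : 0 < 1 - 2 * Real.log s := by
    have := Real.log_nonpos hs0.le hs1
    linarith
  have hL : P12 / (Real.sqrt P11 * Real.sqrt P22) ≤ s ^ 2 * (1 - 2 * Real.log s) / (1 - t) := by
    have h1 : P12 ≤ 2 * a ^ 2 * (1 - 2 * Real.log s) := by
      rw [hlogs]
      linarith
    have h2 : (c * a) * (c * b) ≤ Real.sqrt P11 * Real.sqrt P22 :=
      mul_le_mul e1 e2 (by positivity) (Real.sqrt_nonneg _)
    have h3 : 0 < (c * a) * (c * b) := by positivity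
    calc P12 / (Real.sqrt P11 * Real.sqrt P22) ≤
        2 * a ^ 2 * (1 - 2 * Real.log s) / (Real.sqrt P11 * Real.sqrt P22) :=
          div_le_div_of_nonneg_right h1 (h3.le.trans h2)
      _ ≤ 2 * a ^ 2 * (1 - 2 * Real.log s) / ((c * a) * (c * b)) :=
          div_le_div_of_nonneg_left (by positivity) h3 h2
      _ = s ^ 2 * (1 - 2 * Real.log s) / (1 - t) := by
          have h4 : (c * a) * (c * b) = 2 * (1 - t) * (a * b) := by
            rw [← hc2]
            ring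
          have h5 : (1 - t) ≠ 0 := by linarith
          rw [h4, hs2]
          field_simp
  -- the right side
  have hB12' : a ^ 2 * (3 * b - a) / 6 ≤ B12 := by
    rw [hB12]
    nlinarith [mul_pos ha0 hb0, mul_pos ha0 ha0]
  have e3 : Real.sqrt B11 ≤ Real.sqrt (a ^ 3 / 3) * (1 + t) := by
    have h1 : Real.sqrt (a ^ 3 / 3) * (1 + t) = Real.sqrt (a ^ 3 / 3 * (1 + t) ^ 2) := by
      rw [Real.sqrt_mul (by positivity), Real.sqrt_sq (by linarith)]
    rw [h1]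
    apply Real.sqrt_le_sqrt
    have h2 : a ^ 3 / 3 * (1 + t) ^ 2 = a * (a + t * a) ^ 2 / 3 := by ring
    rw [h2, hta, hB11]
    nlinarith [mul_pos ha0 ha0]
  have e4 : Real.sqrt B22 ≤ Real.sqrt (b ^ 3 / 3) * (1 + t) := by
    have h1 : Real.sqrt (b ^ 3 / 3) * (1 + t) = Real.sqrt (b ^ 3 / 3 * (1 + t) ^ 2) := by
      rw [Real.sqrt_mul (by positivity), Real.sqrt_sq (by linarith)]
    rw [h1]
    apply Real.sqrt_le_sqrt
    have h2 : b ^ 3 / 3 * (1 + t) ^ 2 = b * (b + t * b) ^ 2 / 3 := by ring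
    have h3 : (b + 1) ^ 2 ≤ (b + t * b) ^ 2 := by
      apply pow_le_pow_left₀ (by linarith)
      linarith
    have h4 : b * (b + 1) ^ 2 / 3 ≤ b * (b + t * b) ^ 2 / 3 := by
      have := mul_le_mul_of_nonneg_left h3 hb0.le
      linarith
    rw [h2, hB22]
    refine le_trans ?_ h4
    nlinarith [mul_pos hb0 hb0]
  have e5 : Real.sqrt (a ^ 3 / 3) * Real.sqrt (b ^ 3 / 3) = a * b * (b * s) / 3 := by
    rw [← Real.sqrt_mul (by positivity)]
    have h1 : a ^ 3 / 3 * (b ^ 3 / 3) = (a * b * (b * s) / 3) ^ 2 := by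
      have h2 : (a * b * (b * s) / 3) ^ 2 = a ^ 2 * b ^ 2 * b * (s ^ 2 * b) / 9 := by ring
      rw [h2, hs2b]
      ring
    rw [h1, Real.sqrt_sq (by positivity)]
  have hB11p : 0 < B11 := by rw [hB11]; nlinarith [mul_pos ha0 ha0, mul_pos (mul_pos ha0 ha0) ha0]
  have hB22p : 0 < B22 := by rw [hB22]; nlinarith [mul_pos hb0 hb0, mul_pos (mul_pos hb0 hb0) hb0]
  have hR : s * (3 - s ^ 2) / (2 * (1 + t) ^ 2) ≤ B12 / (Real.sqrt B11 * Real.sqrt B22) := by
    have h1 : Real.sqrt B11 * Real.sqrt B22 ≤ a * b * (b * s) / 3 * (1 + t) ^ 2 := by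
      calc Real.sqrt B11 * Real.sqrt B22 ≤
          (Real.sqrt (a ^ 3 / 3) * (1 + t)) * (Real.sqrt (b ^ 3 / 3) * (1 + t)) :=
            mul_le_mul e3 e4 (Real.sqrt_nonneg _) (by positivity)
        _ = (Real.sqrt (a ^ 3 / 3) * Real.sqrt (b ^ 3 / 3)) * (1 + t) ^ 2 := by ring
        _ = a * b * (b * s) / 3 * (1 + t) ^ 2 := by rw [e5]
    have h2 : 0 < Real.sqrt B11 * Real.sqrt B22 :=
      mul_pos (Real.sqrt_pos.2 hB11p) (Real.sqrt_pos.2 hB22p)
    have h3 : 0 ≤ a ^ 2 * (3 * b - a) / 6 := by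
      have : 0 ≤ 3 * b - a := by linarith
      positivity
    calc s * (3 - s ^ 2) / (2 * (1 + t) ^ 2) =
        (a ^ 2 * (3 * b - a) / 6) / (a * b * (b * s) / 3 * (1 + t) ^ 2) := by
          have h4 : a ^ 2 * (3 * b - a) = a * (s ^ 2 * b) * (3 * b - s ^ 2 * b) := by
            rw [hs2b]
            ring
          rw [h4]
          have h5 : (1 + t) ≠ 0 := by linarith
          field_simp
          ring
      _ ≤ (a ^ 2 * (3 * b - a) / 6) / (Real.sqrt B11 * Real.sqrt B22) :=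
          div_le_div_of_nonneg_left h3 h2 h1
      _ ≤ B12 / (Real.sqrt B11 * Real.sqrt B22) := div_le_div_of_nonneg_right hB12' h2.le
  refine hL.trans (le_trans ?_ hR)
  rw [div_le_div_iff₀ (by linarith) (by positivity)]
  have h1 := mul_le_mul_of_nonneg_left hfin hs0.le
  have h2 : s ^ 2 * (1 - 2 * Real.log s) * (2 * (1 + t) ^ 2) =
      2 * (s * (s * (1 - 2 * Real.log s) * (1 + t) ^ 2)) := by ring
  have h3 : s * (3 - s ^ 2) * (1 - t) = 2 * (s * ((1 - t) * ((3 - s ^ 2) / 2))) := by ring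
  rw [h2, h3]
  linarith

/-- **Covariance inequality.** -/
theorem gp_cov : Pool.Agent.H174.GP.S_cov := by
  intro h hh
  have hr0 : (Real.sqrt (1 + h))⁻¹ < 1 := by
    apply inv_lt_one_of_one_lt₀
    rw [Real.lt_sqrt (by norm_num)]
    linarith
  obtain ⟨f0, hf0⟩ : ∃ f0 : ℝ, f0 = (1 - (Real.sqrt (1 + h))⁻¹) ^ 2 / 2 := ⟨_, rfl⟩
  have hf0p : 0 < f0 := by
    rw [hf0]
    have : 0 < 1 - (Real.sqrt (1 + h))⁻¹ := by linarith
    positivity
  refine ⟨max 2 ⌈6 / f0⌉₊, le_max_of_le_left (by norm_num), fun w w' n hw hww hn => ?_⟩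
  have hw2 : 2 ≤ w := (le_max_left _ _).trans hw
  have hwf : ⌈6 / f0⌉₊ ≤ w := (le_max_right _ _).trans hw
  have ha2 : (2 : ℝ) ≤ w := by exact_mod_cast hw2
  have ha0 : (0 : ℝ) < w := by linarith
  have hle : (w : ℝ) ≤ w' := by nlinarith
  have hleN : w ≤ w' := by exact_mod_cast hle
  have hb0 : (0 : ℝ) < w' := by linarith
  have hlarge : 6 * (w : ℝ)⁻¹ ≤ f0 := by
    have h1 : 6 / f0 ≤ w := (Nat.le_ceil _).trans (by exact_mod_cast hwf)
    rw [div_le_iff₀ hf0p] at h1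
    rw [← div_eq_mul_inv, div_le_iff₀ ha0]
    linarith
  have hsq : w ^ 2 ≤ w' ^ 2 := Nat.pow_le_pow_left hleN 2
  have hwn : w ^ 2 ≤ n := hsq.trans hn
  have hw'n : w' ≤ n := by
    have : w' ≤ w' ^ 2 := by
      rw [pow_two]
      exact Nat.le_mul_of_pos_left w' (by omega)
    omega
  have hwn' : w ≤ n := hleN.trans hw'n
  have h12 := off_le (n := n) (x := w ^ 2) (Nat.one_le_pow _ _ (by omega)) (w' ^ 2) hsq hn
  have h11 := le_diag (n := n) (w ^ 2) hwn
  have h22 := le_diag (n := n) (w' ^ 2) hn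
  push_cast at h12 h11 h22
  rw [Real.sqrt_sq ha0.le] at h11
  rw [Real.sqrt_sq hb0.le] at h22
  rw [Real.log_pow, Real.log_pow] at h12
  push_cast at h12
  have i12 := cI_sum (n := n) hleN hw'n
  have i11 := cI_sum (n := n) (le_refl w) hwn'
  have i22 := cI_sum (n := n) (le_refl w') hw'n
  simp only [← pow_two] at i11 i22
  exact core hh ha2 hww (by rw [← hf0]; exact hlarge) h12 h11 h22 i12 i11 i22

end Pool.Agent.H740.GP174
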